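import Mathlib

/-!
# The class of the Boolean `(𝔪, 0)`-products need not have a smallest element

For every infinite cardinal `𝔪` and the family of countably many four-element Boolean algebras there
is no smallest Boolean `(𝔪, 0)`-product; in particular the minimal `(𝔪, 0)`-product is not the
smallest one.

Idea: the power sets of two disjoint countable dense subsets `Q₁`, `Q₂` of the Cantor space are
`(𝔪, 0)`-products. If both had `𝔪`-homomorphisms to the `(𝔪, 0)`-product `M`, then the meets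
`e_q = ⋀ j_t (q_t)` would have join `1` for `q ∈ Q₁` as well as for `q ∈ Q₂`, but they are disjoint.
-/

set_option autoImplicit false

open Cardinal

namespace Pool.Agent.Results.MP_27bb78_al.NoSmallest

/-- `B` is a Boolean `𝔪`-algebra: all subsets of size at most `𝔪` have a join and a meet. -/
def IsMAlgebra (m : Cardinal.{0}) (B : Type) [BooleanAlgebra B] : Prop :=
  ∀ s : Set B, #s ≤ m → (∃ a, IsLUB s a) ∧ ∃ a, IsGLB s a

/-- `f` is an `𝔪`-homomorphism: a homomorphism of Boolean algebras which preserves every existing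
join and meet of at most `𝔪` elements. -/
def IsMHom (m : Cardinal.{0}) {A B : Type} [BooleanAlgebra A] [BooleanAlgebra B] (f : A → B) :
    Prop :=
  (∀ a b, f (a ⊔ b) = f a ⊔ f b) ∧ (∀ a b, f (a ⊓ b) = f a ⊓ f b) ∧ (∀ a, f aᶜ = (f a)ᶜ) ∧
    ∀ s : Set A, #s ≤ m → ∀ a, (IsLUB s a → IsLUB (f '' s) (f a)) ∧
      (IsGLB s a → IsGLB (f '' s) (f a))

/-- `(i, B)` is a Boolean `(𝔪, 0)`-product of the Boolean algebras `A t`. -/
structure IsProduct (m : Cardinal.{0}) {T : Type} (A : T → Type) [∀ t, BooleanAlgebra (A t)]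
    (B : Type) [BooleanAlgebra B] (i : ∀ t, A t → B) : Prop where
  /-- `B` is a Boolean `𝔪`-algebra -/
  alg : IsMAlgebra m B
  /-- the `i t` are `𝔪`-isomorphisms of `A t` into `B` -/
  hom : ∀ t, IsMHom m (i t) ∧ Function.Injective (i t)
  /-- the images of the `A t` are independent -/
  indep : ∀ (T' : Finset T) (a : ∀ t, A t), (∀ t ∈ T', a t ≠ ⊥) →
    (T'.inf fun t => i t (a t)) ≠ ⊥
  /-- the images of the `A t` together `𝔪`-generate `B` -/
  gen : ∀ S : Set B, (∀ t a, i t a ∈ S) → (∀ b ∈ S, bᶜ ∈ S) →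
    (∀ s ⊆ S, #s ≤ m → ∀ b, IsLUB s b ∨ IsGLB s b → b ∈ S) → ∀ b, b ∈ S

/-- The power set of a set `Q` of subsets of `ℕ`; the coordinate embeddings of the four-element
Boolean algebra `Set Prop`. -/
def coord (Q : Set (Set ℕ)) (t : ℕ) (a : Set Prop) : Set Q := {q | (t ∈ q.1) ∈ a}

theorem isLUB_coord (Q : Set (Set ℕ)) (t : ℕ) (s : Set (Set Prop)) (a : Set Prop)
    (h : IsLUB s a) : IsLUB (coord Q t '' s) (coord Q t a) := by
  have h1 : a = ⋃₀ s := h.unique (isLUB_sSup s)
  have h2 : coord Q t a = ⋃₀ (coord Q t '' s) := by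
    ext q
    simp [coord, h1]
  rw [h2]
  exact isLUB_sSup _

theorem isGLB_coord (Q : Set (Set ℕ)) (t : ℕ) (s : Set (Set Prop)) (a : Set Prop)
    (h : IsGLB s a) : IsGLB (coord Q t '' s) (coord Q t a) := by
  have h1 : a = ⋂₀ s := h.unique (isGLB_sInf s)
  have h2 : coord Q t a = ⋂₀ (coord Q t '' s) := by
    ext q
    simp [coord, h1]
  rw [h2]
  exact isGLB_sInf _

theorem isMHom_coord (m : Cardinal.{0}) (Q : Set (Set ℕ)) (t : ℕ) : IsMHom m (coord Q t) :=
  ⟨fun _ _ => rfl, fun _ _ => rfl, fun _ => rfl, fun s _ a =>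
    ⟨isLUB_coord Q t s a, isGLB_coord Q t s a⟩⟩

/-- `Q` is dense in the Cantor space. -/
def Dense' (Q : Set (Set ℕ)) : Prop := ∀ (T' : Finset ℕ) (x : Set ℕ), ∃ q ∈ Q, ∀ t ∈ T', (t ∈ q ↔ t ∈ x)

theorem isProduct_coord (m : Cardinal.{0}) (hm : ℵ₀ ≤ m) (Q : Set (Set ℕ)) (hQ : Q.Countable)
    (hd : Dense' Q) : IsProduct m (fun _ : ℕ => Set Prop) (Set Q) (coord Q) where
  alg s _ := ⟨⟨_, isLUB_sSup s⟩, ⟨_, isGLB_sInf s⟩⟩
  hom t := by
    refine ⟨isMHom_coord m Q t, fun a b h => ?_⟩
    ext P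
    obtain ⟨q, hq, hqt⟩ := hd {t} {n | P}
    have h1 : (t ∈ q) = P := propext ((hqt t (by simp)).trans (by simp))
    have h2 : (⟨q, hq⟩ : Q) ∈ coord Q t a ↔ (⟨q, hq⟩ : Q) ∈ coord Q t b := by rw [h]
    simpa only [coord, Set.mem_ofPred_eq, h1] using h2
  indep T' a ha := by
    classical
    have h1 : ∀ t, ∃ P : Prop, t ∈ T' → P ∈ a t := by
      intro t
      by_cases ht : t ∈ T'
      · obtain ⟨P, hP⟩ := Set.nonempty_iff_ne_empty.2 (ha t ht)
        exact ⟨P, fun _ => hP⟩
      · exact ⟨True, fun h => absurd h ht⟩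
    choose x hx using h1
    obtain ⟨q, hq, hqt⟩ := hd T' {t | x t}
    have h2 : ∀ U : Finset ℕ, U ⊆ T' → (⟨q, hq⟩ : Q) ∈ (U.inf fun t => coord Q t (a t)) := by
      intro U
      induction U using Finset.induction_on with
      | empty => intro _; exact trivial
      | insert t U _ ih =>
        intro hU
        rw [Finset.inf_insert]
        refine ⟨?_, ih fun s hs => hU (Finset.mem_insert_of_mem hs)⟩
        have ht : t ∈ T' := hU (Finset.mem_insert_self _ _)
        have h3 : (t ∈ q) = x t := propext (hqt t ht)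
        change (t ∈ q) ∈ a t
        rw [h3]
        exact hx t ht
    intro h
    have h3 := h2 T' (Finset.Subset.refl _)
    rw [h] at h3
    exact h3
  gen S hS hc hj b := by
    have hsing : ∀ q : Q, ({q} : Set Q) ∈ S := by
      intro q
      refine hj (Set.range fun t => coord Q t {t ∈ q.1}) ?_ ?_ _ (Or.inr ?_)
      · rintro _ ⟨t, rfl⟩
        exact hS t _
      · exact (Set.countable_range _).le_aleph0.trans hm
      · have : ({q} : Set Q) = ⋂₀ (Set.range fun t => coord Q t {t ∈ q.1}) := by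
          ext r
          simp only [Set.mem_singleton_iff, Set.sInter_range, Set.mem_iInter, coord,
            Set.mem_ofPred_eq]
          constructor
          · rintro rfl t
            rfl
          · intro h
            apply Subtype.ext
            ext t
            exact iff_of_eq (h t)
        rw [this]
        exact isGLB_sInf _
    refine hj ((fun q : Q => ({q} : Set Q)) '' b) ?_ ?_ _ (Or.inl ?_)
    · rintro _ ⟨q, _, rfl⟩
      exact hsing q
    · have : Countable Q := hQ
      exact ((Set.to_countable b).image _).le_aleph0.trans hm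
    · have : b = ⋃₀ ((fun q : Q => ({q} : Set Q)) '' b) := by
        ext r
        simp
      conv_rhs => rw [this]
      exact isLUB_sSup _

/-- If `(j, M) ≤ (coord Q, Set Q)` then the meets `⋀ t, j t (q t)`, `q ∈ Q`, have join `1`. -/
theorem top_le_of_hom (m : Cardinal.{0}) (hm : ℵ₀ ≤ m) (Q : Set (Set ℕ)) (hQ : Q.Countable)
    (M : Type) [BooleanAlgebra M] (j : ℕ → Set Prop → M) (h : Set Q → M) (hh : IsMHom m h)
    (hj : ∀ t a, j t a = h (coord Q t a)) (e : Set ℕ → M)
    (he : ∀ q, IsGLB (Set.range fun t => j t {t ∈ q}) (e q)) (c : M) (hc : ∀ q ∈ Q, e q ≤ c) :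
    c = ⊤ := by
  have h1 : ∀ q : Q, h {q} = e q.1 := by
    intro q
    have h2 : IsGLB (Set.range fun t => coord Q t {t ∈ q.1}) ({q} : Set Q) := by
      have : ({q} : Set Q) = ⋂₀ (Set.range fun t => coord Q t {t ∈ q.1}) := by
        ext r
        simp only [Set.mem_singleton_iff, Set.sInter_range, Set.mem_iInter, coord,
          Set.mem_ofPred_eq]
        constructor
        · rintro rfl t
          rfl
        · intro h
          apply Subtype.ext
          ext t
          exact iff_of_eq (h t)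
      rw [this]
      exact isGLB_sInf _
    have h3 := (hh.2.2.2 _ ((Set.countable_range _).le_aleph0.trans hm) _).2 h2
    rw [← Set.range_comp] at h3
    have h4 : (h ∘ fun t => coord Q t {t ∈ q.1}) = fun t => j t {t ∈ q.1} := by
      funext t
      exact (hj t _).symm
    rw [h4] at h3
    exact h3.unique (he q.1)
  have h5 : IsLUB (Set.range fun q : Q => ({q} : Set Q)) Set.univ := by
    have : (Set.univ : Set Q) = ⋃₀ (Set.range fun q : Q => ({q} : Set Q)) := by
      ext r
      simp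
    rw [this]
    exact isLUB_sSup _
  have : Countable Q := hQ
  have h6 := (hh.2.2.2 _ ((Set.countable_range _).le_aleph0.trans hm) _).1 h5
  have h7 : h Set.univ ≤ c := by
    apply h6.2
    rintro _ ⟨_, ⟨q, rfl⟩, rfl⟩
    rw [h1 q]
    exact hc q.1 q.2
  have h8 : h Set.univ = ⊤ := by
    have h9 := hh.1 Set.univ (Set.univ)ᶜ
    have h10 := hh.2.2.1 Set.univ
    rw [h10] at h9
    have h11 : (Set.univ : Set Q) ⊔ (Set.univ)ᶜ = Set.univ := by simp
    rw [h11] at h9
    rw [h9, sup_compl_eq_top]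
  exact top_le_iff.1 (h8 ▸ h7)

/-- The finite sets. -/
def Q1 : Set (Set ℕ) := {q | q.Finite}

/-- The cofinite sets. -/
def Q2 : Set (Set ℕ) := {q | qᶜ.Finite}

theorem countable_Q1 : Q1.Countable := Set.Countable.ofPred_finite

theorem countable_Q2 : Q2.Countable := by
  have : Q2 = compl '' Q1 := by
    ext q
    simp only [Q1, Q2, Set.mem_ofPred_eq, Set.mem_image]
    constructor
    · intro h
      exact ⟨qᶜ, h, compl_compl q⟩
    · rintro ⟨r, hr, rfl⟩
      rwa [compl_compl]
  rw [this]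
  exact countable_Q1.image _

theorem dense_Q1 : Dense' Q1 := by
  intro T' x
  refine ⟨{t | t ∈ T' ∧ t ∈ x}, ?_, fun t ht => ?_⟩
  · exact T'.finite_toSet.subset fun t ht => ht.1
  · simp [ht]

theorem dense_Q2 : Dense' Q2 := by
  intro T' x
  refine ⟨{t | t ∈ T' → t ∈ x}, ?_, fun t ht => ?_⟩
  · refine T'.finite_toSet.subset fun t ht => ?_
    by_contra h
    exact ht fun h' => absurd h' h
  · simp [ht]

/-- For every infinite cardinal `𝔪` there is a countable family of four-element Boolean algebras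
whose class of Boolean `(𝔪, 0)`-products has no smallest element: for every `(𝔪, 0)`-product
`(j, M)` there is an `(𝔪, 0)`-product `(i, B)` without an `𝔪`-homomorphism `h : B → M` with
`j t = h ∘ i t` for all `t`. -/
theorem result (m : Cardinal.{0}) (hm : ℵ₀ ≤ m) :
    ∃ (A : ℕ → Type) (_ : ∀ t, BooleanAlgebra (A t)),
      (∀ t, Nat.card (A t) = 4) ∧
      ∀ (M : Type) [BooleanAlgebra M] (j : ∀ t, A t → M), IsProduct m A M j →
        ∃ (B : Type) (_ : BooleanAlgebra B) (i : ∀ t, A t → B), IsProduct m A B i ∧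
          ¬ ∃ h : B → M, IsMHom m h ∧ ∀ t a, j t a = h (i t a) := by
  refine ⟨fun _ => Set Prop, fun _ => inferInstance, fun _ => ?_, ?_⟩
  · simp
  intro M _ j hj
  by_contra hcon
  push Not at hcon
  obtain ⟨h1, hh1, hj1⟩ := hcon (Set Q1) inferInstance (coord Q1)
    (isProduct_coord m hm Q1 countable_Q1 dense_Q1)
  obtain ⟨h2, hh2, hj2⟩ := hcon (Set Q2) inferInstance (coord Q2)
    (isProduct_coord m hm Q2 countable_Q2 dense_Q2)
  have hex : ∀ q : Set ℕ, ∃ c, IsGLB (Set.range fun t => j t {t ∈ q}) c := fun q =>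
    (hj.alg _ ((Set.countable_range _).le_aleph0.trans hm)).2
  choose e he using hex
  have hdisj : ∀ q ∈ Q1, ∀ r ∈ Q2, e r ≤ (e q)ᶜ := by
    intro q hq r hr
    have hne : q ≠ r := by
      rintro rfl
      exact Set.infinite_univ (α := ℕ) (by
        rw [← Set.union_compl_self q]
        exact Set.Finite.union hq hr)
    obtain ⟨t, ht⟩ : ∃ t, (t ∈ q) ≠ (t ∈ r) := by
      by_contra hcon2
      push Not at hcon2
      exact hne (Set.ext fun t => iff_of_eq (hcon2 t))
    have e1 : e q ≤ j t {t ∈ q} := (he q).1 ⟨t, rfl⟩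
    have e2 : e r ≤ j t {t ∈ r} := (he r).1 ⟨t, rfl⟩
    have e3 : j t {t ∈ r} ≤ (j t {t ∈ q})ᶜ := by
      rw [← (hj.hom t).1.2.2.1, ← inf_eq_left, ← (hj.hom t).1.2.1]
      congr 1
      rw [inf_eq_left]
      intro P hP
      rw [Set.mem_singleton_iff] at hP
      subst hP
      exact fun h => ht h.symm
    exact e2.trans (e3.trans (compl_le_compl e1))
  have h3 : ∀ q ∈ Q1, e q = ⊥ := by
    intro q hq
    have := top_le_of_hom m hm Q2 countable_Q2 M j h2 hh2 hj2 e he (e q)ᶜ (hdisj q hq)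
    rwa [compl_eq_top] at this
  have h4 : (⊥ : M) = ⊤ := top_le_of_hom m hm Q1 countable_Q1 M j h1 hh1 hj1 e he ⊥
    fun q hq => (h3 q hq).le
  have h5 := hj.indep ∅ (fun _ => ⊤) (by simp)
  rw [Finset.inf_empty] at h5
  exact h5 h4.symm

end Pool.Agent.Results.MP_27bb78_al.NoSmallest
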